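import Mathlib
import Pool.Agent.Work.MP_48678a_mult.Lower

/-!
For every irrational number `α` and every real `γ`, all but at most `C N ^ θ` of the numbers
`n α + γ`, `n < N`, have the digit `d` infinitely often in base `b`, where
`θ = log (b - 1) / log b < 1`; for the Liouville numbers the exponent is sharp.
-/

namespace Pool.Agent.Results.MP_48678a_nt.MultiplesOfIrrationals

open MahlerMult

theorem result :
    (∀ b d : ℕ, 2 ≤ b → d < b → ∀ α : ℝ, Irrational α → ∀ (γ : ℝ) (N : ℕ), 1 ≤ N →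
      ({n : ℕ | n < N ∧ FinitelyOften b d (n * α + γ)}.ncard : ℝ) ≤
        2 * (b + 2) * (b - 1) ^ 2 * (N : ℝ) ^ (Real.log (b - 1) / Real.log b)) ∧
    (∀ b : ℕ, 2 ≤ b → ∃ α : ℝ, Irrational α ∧ ∀ d : ℕ, 1 ≤ d → d < b → ∀ N : ℕ, 1 ≤ N →
      (N : ℝ) ^ (Real.log (b - 1) / Real.log b) ≤
        (b - 1) * ({n : ℕ | n < N ∧ FinitelyOften b d (n * α)}.ncard : ℝ)) :=
  ⟨fun _ _ hb hd _ hα γ N hN => upper hb hd hα γ N hN, fun _ hb => lower hb⟩

end Pool.Agent.Results.MP_48678a_nt.MultiplesOfIrrationals
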