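import Mathlib
import Pool.Agent.Work.MP_48678a_t6.Final

/-!
For every `D ≥ 1` at most `C H ^ (D - 1 + 2 log 2 / log 3)` of the integer polynomials of degree at
most `D` and height at most `H` have a root whose ternary digits are all `0` or `1`.
-/

namespace Pool.Agent.Results.MP_48678a_nt.PolynomialsByHeight

open Polynomial

theorem result (D : ℕ) (hD : 1 ≤ D) : ∃ C : ℝ, ∀ H : ℕ, 1 ≤ H →
    ({P : ℤ[X] | P.natDegree ≤ D ∧ (∀ i, |P.coeff i| ≤ H) ∧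
      ∃ ε : ℕ → ℕ, (∀ i, ε i ≤ 1) ∧
        aeval (∑' i, (ε i : ℝ) / (3 : ℝ) ^ i) P = 0}.ncard : ℝ) ≤
      C * (H : ℝ) ^ ((D : ℝ) - 1 + 2 * (Real.log 2 / Real.log 3)) := by
  obtain ⟨C, hC⟩ := MahlerT6.all D hD
  refine ⟨C, fun H hH => ?_⟩
  convert hC H hH using 3
  ext P
  simp only [Set.mem_ofPred_eq, MahlerT6.IsX]
  constructor
  · rintro ⟨h1, h2, ε, h3, h4⟩
    exact ⟨h1, h2, _, ⟨ε, h3, rfl⟩, h4⟩
  · rintro ⟨h1, h2, x, ⟨ε, h3, rfl⟩, h4⟩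
    exact ⟨h1, h2, ε, h3, h4⟩

end Pool.Agent.Results.MP_48678a_nt.PolynomialsByHeight
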