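import Mathlib
import Pool.Agent.Work.MP_48678a_t2.Final

/-!
A power saving for multiples of algebraic irrationals: for every `x > 0` with irrationality
exponent smaller than `2 + 1/3000` (all quadratic irrationals, unconditionally) the number of
`n ≤ N` such that `n x + γ` is a power of `3` times a number with ternary digits `0` and `1` is at
most `C N ^ (log 2 / log 3 - 1 / 3000)`, with `C` independent of `γ`.
-/

namespace Pool.Agent.Results.MP_48678a_nt.PowerSaving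

open MahlerT2

theorem result :
    (∀ x : ℝ, 0 < x → Irrational x → ¬ LiouvilleWith (2 + 1 / 3000) x →
      ∃ C : ℝ, ∀ (γ : ℝ) (N : ℕ), 1 ≤ N →
        ({n : ℕ | 1 ≤ n ∧ n ≤ N ∧ Mahler (n * x + γ)}.ncard : ℝ) ≤
          C * (N : ℝ) ^ (Real.log 2 / Real.log 3 - 1 / 3000)) ∧
    (∀ x : ℝ, 0 < x → Irrational x →
      (∃ f : Polynomial ℤ, f ≠ 0 ∧ f.natDegree ≤ 2 ∧ Polynomial.aeval x f = 0) →
      ∃ C : ℝ, ∀ (γ : ℝ) (N : ℕ), 1 ≤ N →
        ({n : ℕ | 1 ≤ n ∧ n ≤ N ∧ Mahler (n * x + γ)}.ncard : ℝ) ≤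
          C * (N : ℝ) ^ (Real.log 2 / Real.log 3 - 1 / 3000)) :=
  ⟨all, quadratic⟩

end Pool.Agent.Results.MP_48678a_nt.PowerSaving
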