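import Mathlib
import Pool.Agent.Work.MP_48678a_h55.Final

/-!
Roots of perturbed powers in base `b` have the digit `b - 1`, uniformly (for `b = 3`: they are
not multiples, by powers of `3`, of numbers with ternary digits `0` and `1`).
-/

namespace Pool.Agent.Results.MP_48678a_nt.UniformRadicals

open Polynomial

theorem result (b d c D : ℕ) (hb : 3 ≤ b) (hd : 2 ≤ d) (hc : 1 ≤ c) :
    ∃ T k₀ : ℕ, ∀ k : ℕ, k₀ ≤ k → ∀ f : ℤ[X], f.natDegree ≤ D → f.coeff 0 = (c : ℤ) ^ d →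
      (∀ i, 1 ≤ i → |f.coeff i| ^ T ≤ (b : ℤ) ^ k) →
      (¬ ∃ g : ℚ[X], g ^ d = f.map (Int.castRingHom ℚ)) →
      ∀ α : ℝ, 0 < α → α ^ d = (f.map (Int.castRingHom ℝ)).eval (((b : ℝ) ^ k)⁻¹) →
        ∀ (m : ℤ) (ε : ℕ → ℕ), (∀ n, ε n ≤ b - 2) →
          α ≠ (b : ℝ) ^ m * ∑' n, (ε n : ℝ) / (b : ℝ) ^ n :=
  Pool.Agent.Work.H55M.family b d c D hb (by omega) hc

end Pool.Agent.Results.MP_48678a_nt.UniformRadicals
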